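import Pool.Agent.helper64.OT.SpecG
import Pool.Agent.helper63.SPI.ZA
import Pool.Agent.helper63.SPI.ZB

/-!
# Row DUA of project OT, second theorem (adapted from `helper63/SPI/{ZA,ZB}.lean`)
-/

set_option autoImplicit false

namespace Pool.Agent.OG

open Finset Pool.Agent.OT Pool.Agent.SPI Pool.Agent.helper85.PG
open scoped Pointwise

/-- the even moment of the transform of `V` -/
theorem DUA_mom (hPLN : Pool.Agent.SPI.PLN_stmt) {p : ℕ} [Fact p.Prime] (V U : Finset (ZMod p)) (k : ℕ)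
    (hU : ∀ f : Fin k → ZMod p, (∀ i, f i ∈ V) → ∑ i, f i ∈ U) :
    p * (V.card : ℝ) ^ (2 * k) ≤ U.card * ∑ t : ZMod p, ‖∑ y ∈ V, (ZMod.stdAddChar (t * y) : ℂ)‖ ^ (2 * k) := by
  classical
  set r : ZMod p → ℝ := fun x => (((Fintype.piFinset fun _ : Fin k => V).filter
      (fun f => ∑ i, f i = x)).card : ℝ) with hr
  have hr0 : ∀ x, 0 ≤ r x := fun x => Nat.cast_nonneg _
  have hmass : ∑ x ∈ U, r x = (V.card : ℝ) ^ k := by
    have h1 : ((Fintype.piFinset fun _ : Fin k => V).card : ℝ) = (V.card : ℝ) ^ k := by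
      rw [Fintype.card_piFinset]
      simp
    rw [← h1]
    have h2 : ∀ f ∈ (Fintype.piFinset fun _ : Fin k => V), (∑ i, f i) ∈ U := by
      intro f hf
      exact hU f (fun i => Fintype.mem_piFinset.1 hf i)
    rw [card_eq_sum_card_fiberwise h2, Nat.cast_sum]
  have hCS : ((V.card : ℝ) ^ k) ^ 2 ≤ U.card * ∑ x, r x ^ 2 := by
    rw [← hmass]
    have h1 := sq_sum_le_card_mul_sum_sq (s := U) (f := r)
    refine h1.trans (mul_le_mul_of_nonneg_left ?_ (Nat.cast_nonneg _))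
    exact sum_le_sum_of_subset_of_nonneg (subset_univ _) fun x _ _ => sq_nonneg _
  have hP := hPLN p univ (fun x => ((r x : ℝ) : ℂ))
  have hft : ∀ t, ‖ft univ (fun x => ((r x : ℝ) : ℂ)) t‖ ^ 2 =
      ‖∑ y ∈ V, (ZMod.stdAddChar (t * y) : ℂ)‖ ^ (2 * k) := by
    intro t
    rw [hr, ZA_four V k t, norm_pow, ← pow_mul, mul_comm]
  have hn : ∀ x, ‖((r x : ℝ) : ℂ)‖ ^ 2 = r x ^ 2 := by
    intro x
    rw [Complex.norm_real, Real.norm_eq_abs, sq_abs]
  simp only [hft, hn] at hP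
  rw [hP]
  have e1 : (V.card : ℝ) ^ (2 * k) = ((V.card : ℝ) ^ k) ^ 2 := by
    rw [← pow_mul, mul_comm]
  rw [e1]
  have hp0 : (0 : ℝ) ≤ p := Nat.cast_nonneg _
  calc (p : ℝ) * ((V.card : ℝ) ^ k) ^ 2 ≤ p * (U.card * ∑ x, r x ^ 2) := mul_le_mul_of_nonneg_left hCS hp0
    _ = U.card * (p * ∑ x, r x ^ 2) := by ring

/-- a large Fourier coefficient of a system at `t`: the phases at `2 t` are small on `P 1` -/
theorem DUA_big (hPKC : PKC_stmt) {p : ℕ} [Fact p.Prime] (d : ℕ) (P : ℝ → Finset (ZMod p)) (τ : ℝ) (t : ZMod p)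
    (hP : IsSys p d P) (hτ0 : 0 ≤ τ) (hτ1 : τ ≤ 1)
    (hbig : (1 - τ) * ((P 2).card : ℝ) ≤ ‖∑ y ∈ P 2, (ZMod.stdAddChar (t * y) : ℂ)‖) (y₀ : ZMod p)
    (hy₀ : y₀ ∈ P 1) : 1 - ZB_c (2 * t * y₀) ≤ 16 * (5 ^ d * τ) := by
  classical
  have hcard := (hPKC.2.2 p d P hP 2 1 (by norm_num) (by norm_num)).1
  have hcard' : ((P 2).card : ℝ) ≤ 5 ^ d * ((P 1).card : ℝ) := by
    have e1 : (1 + 2 * 2 / 1 : ℝ) = 5 := by norm_num
    rwa [e1] at hcard
  have hV0 : 0 < (P 2).card := hP.card_pos (by norm_num)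
  have hV : (0 : ℝ) < ((P 2).card : ℝ) := by exact_mod_cast hV0
  have hP1 : (0 : ℝ) < ((P 1).card : ℝ) := by exact_mod_cast hP.card_pos (by norm_num)
  have hreal : ‖∑ y ∈ P 2, (ZMod.stdAddChar (t * y) : ℂ)‖ = |∑ y ∈ P 2, ZB_c (t * y)| := by
    have him : (∑ y ∈ P 2, (ZMod.stdAddChar (t * y) : ℂ)).im = 0 := by
      have h1 : ∑ y ∈ P 2, (ZMod.stdAddChar (t * y) : ℂ).im =
          ∑ y ∈ P 2, -(ZMod.stdAddChar (t * y) : ℂ).im := by
        refine sum_nbij' (fun y => -y) (fun y => -y) (fun y hy => hP.neg_mem hy)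
          (fun y hy => hP.neg_mem hy) (fun y _ => neg_neg y) (fun y _ => neg_neg y) ?_
        intro y _
        rw [mul_neg, ZB_neg, Complex.conj_im, neg_neg]
      rw [Complex.im_sum]
      rw [sum_neg_distrib] at h1
      linarith
    have hre : (∑ y ∈ P 2, (ZMod.stdAddChar (t * y) : ℂ)) =
        ((∑ y ∈ P 2, ZB_c (t * y) : ℝ) : ℂ) := by
      apply Complex.ext
      · rw [Complex.re_sum, Complex.ofReal_re]
        rfl
      · rw [him, Complex.ofReal_im]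
    rw [hre, Complex.norm_real, Real.norm_eq_abs]
  rw [hreal] at hbig
  have hCS : (∑ y ∈ P 2, ZB_c (t * y)) ^ 2 ≤ (P 2).card * ∑ y ∈ P 2, ZB_c (t * y) ^ 2 :=
    sq_sum_le_card_mul_sum_sq
  have hsq : ((1 - τ) * ((P 2).card : ℝ)) ^ 2 ≤ (∑ y ∈ P 2, ZB_c (t * y)) ^ 2 := by
    rw [← sq_abs (∑ y ∈ P 2, ZB_c (t * y))]
    exact pow_le_pow_left₀ (mul_nonneg (by linarith) hV.le) hbig 2
  have hlow : (1 - τ) ^ 2 * ((P 2).card : ℝ) ≤ ∑ y ∈ P 2, ZB_c (t * y) ^ 2 := by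
    have h1 := hsq.trans hCS
    have h2 : ((P 2).card : ℝ) * ((1 - τ) ^ 2 * ((P 2).card : ℝ)) ≤
        ((P 2).card : ℝ) * ∑ y ∈ P 2, ZB_c (t * y) ^ 2 := by
      refine le_trans (le_of_eq ?_) h1
      ring
    exact le_of_mul_le_mul_left h2 hV
  set ζ : ZMod p := 2 * t with hζ
  have hdef : ∑ y ∈ P 2, (1 - ZB_c (ζ * y)) ≤ 4 * τ * ((P 2).card : ℝ) := by
    have h1 : ∀ y ∈ P 2, 1 - ZB_c (ζ * y) = 2 - 2 * ZB_c (t * y) ^ 2 := by
      intro y _
      rw [hζ, mul_assoc, ZB_two]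
      ring
    rw [sum_congr rfl h1, sum_sub_distrib, sum_const, nsmul_eq_mul, ← mul_sum]
    nlinarith [sq_nonneg τ]
  have hsub : P 1 ⊆ P 2 := hP.mono (by norm_num)
  have hA : ∑ y ∈ P 1, (1 - ZB_c (ζ * y)) ≤ 4 * τ * ((P 2).card : ℝ) := by
    refine (sum_le_sum_of_subset_of_nonneg hsub fun y _ _ => ?_).trans hdef
    have := ZB_le (ζ * y)
    linarith
  have hB : ∑ y ∈ P 1, (1 - ZB_c (ζ * y + ζ * y₀)) ≤ 4 * τ * ((P 2).card : ℝ) := by
    have h1 : ∑ y ∈ P 1, (1 - ZB_c (ζ * y + ζ * y₀)) =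
        ∑ y ∈ (P 1).image (fun y => y + y₀), (1 - ZB_c (ζ * y)) := by
      rw [sum_image (fun a _ b _ h => add_right_cancel h)]
      refine sum_congr rfl fun y _ => ?_
      rw [mul_add]
    rw [h1]
    refine (sum_le_sum_of_subset_of_nonneg (t := P 2) ?_ fun y _ _ => ?_).trans hdef
    · intro z hz
      obtain ⟨y, hy, rfl⟩ := mem_image.1 hz
      have h2 := hP.add_mem hy hy₀
      norm_num at h2
      exact h2
    · have := ZB_le (ζ * y)
      linarith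
  have hsum : ((P 1).card : ℝ) * (1 - ZB_c (ζ * y₀)) ≤ 16 * τ * ((P 2).card : ℝ) := by
    have h1 : ((P 1).card : ℝ) * (1 - ZB_c (ζ * y₀)) = ∑ y ∈ P 1, (1 - ZB_c (ζ * y₀)) := by
      rw [sum_const, nsmul_eq_mul]
    have h2 : ∑ y ∈ P 1, (1 - ZB_c (ζ * y₀)) ≤
        ∑ y ∈ P 1, (2 * (1 - ZB_c (ζ * y + ζ * y₀)) + 2 * (1 - ZB_c (ζ * y))) :=
      sum_le_sum fun y _ => ZB_tri _ _
    rw [sum_add_distrib, ← mul_sum, ← mul_sum] at h2
    rw [h1]
    linarith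
  have h1 : ((P 1).card : ℝ) * (1 - ZB_c (ζ * y₀)) ≤ ((P 1).card : ℝ) * (16 * (5 ^ d * τ)) := by
    refine hsum.trans ?_
    have := mul_le_mul_of_nonneg_left hcard' (by linarith : (0 : ℝ) ≤ 16 * τ)
    linarith
  exact le_of_mul_le_mul_left h1 hP1

theorem DUA_dist {p : ℕ} [Fact p.Prime] (x : ZMod p) : ‖ps x - 1‖ ^ 2 = 2 * (1 - ZB_c x) := by
  have h1 := ZB_sq x
  have h2 := Complex.sq_norm ((ZMod.stdAddChar x : ℂ) - 1)
  rw [Complex.normSq_apply] at h2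
  simp only [Complex.sub_re, Complex.sub_im, Complex.one_re, Complex.one_im] at h2
  unfold ps ZB_c
  rw [h2]
  nlinarith

/-- sums of `m` elements of `P 2` are in `P (2 m)` -/
theorem DUA_sum {p : ℕ} [Fact p.Prime] (d : ℕ) (P : ℝ → Finset (ZMod p)) (hP : IsSys p d P) (m : ℕ)
    (f : Fin m → ZMod p) (hf : ∀ i, f i ∈ P 2) : ∑ i, f i ∈ P (2 * (m : ℝ)) := by
  induction m with
  | zero =>
    rw [Fin.sum_univ_zero]
    exact hP.zero_mem (by simp)
  | succ m ih =>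
    rw [Fin.sum_univ_succ]
    have h1 := ih (fun i => f i.succ) (fun i => hf _)
    have h2 := hP.add_mem (hf 0) h1
    have e : (2 : ℝ) + 2 * (m : ℝ) = 2 * ((m + 1 : ℕ) : ℝ) := by
      push_cast
      ring
    rw [← e]
    exact h2

/-- the choice of `k` -/
theorem DUA_k (d : ℕ) (τ : ℝ) (h0 : 0 < τ) (h1 : τ ≤ 1) :
    ∃ k : ℕ, 1 ≤ k ∧ (1 - τ) ^ (2 * k - 2) * (1 + 4 * (k : ℝ)) ^ d ≤ 1 / 2 := by
  -- put `k = m + 1`
  have hr0 : 0 ≤ (1 - τ) ^ 2 := sq_nonneg _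
  have hr1 : (1 - τ) ^ 2 < 1 := by nlinarith
  have ht := tendsto_pow_const_mul_const_pow_of_lt_one d hr0 hr1
  have ht2 : Filter.Tendsto (fun m : ℕ => (9 : ℝ) ^ d * ((m : ℝ) ^ d * ((1 - τ) ^ 2) ^ m)) Filter.atTop (nhds 0) := by
    have := ht.const_mul ((9 : ℝ) ^ d)
    rwa [mul_zero] at this
  have hev := (ht2.eventually (gt_mem_nhds (show (0 : ℝ) < 1 / 2 by norm_num))).and (Filter.eventually_ge_atTop 1)
  obtain ⟨m, hm, hm1⟩ := hev.exists
  refine ⟨m + 1, by omega, ?_⟩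
  have e1 : 2 * (m + 1) - 2 = 2 * m := by omega
  rw [e1, pow_mul]
  have hm1' : (1 : ℝ) ≤ m := by exact_mod_cast hm1
  have h2 : (1 + 4 * ((m + 1 : ℕ) : ℝ)) ≤ 9 * (m : ℝ) := by
    push_cast
    linarith
  have h3 : (1 + 4 * ((m + 1 : ℕ) : ℝ)) ^ d ≤ (9 * (m : ℝ)) ^ d := pow_le_pow_left₀ (by positivity) h2 d
  have h4 : 0 ≤ ((1 - τ) ^ 2) ^ m := by positivity
  refine (mul_le_mul_of_nonneg_left h3 h4).trans ?_
  rw [mul_pow]
  refine le_trans (le_of_eq ?_) hm.le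
  ring

theorem DUA (hPLN : Pool.Agent.SPI.PLN_stmt) (hPKC : PKC_stmt) : DUA_stmt := by
  classical
  intro d κ₀ hκ₀
  set κ : ℝ := min κ₀ 1 with hκ
  have hκ0 : 0 < κ := lt_min hκ₀ one_pos
  have hκ1 : κ ≤ 1 := min_le_right _ _
  have hκκ : κ ≤ κ₀ := min_le_left _ _
  set τ : ℝ := κ ^ 2 / (32 * 5 ^ d) with hτ
  have h5 : (1 : ℝ) ≤ 5 ^ d := one_le_pow₀ (by norm_num)
  have hτ0 : 0 < τ := by positivity
  have hτ1 : τ ≤ 1 := by
    rw [hτ, div_le_one (by positivity)]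
    nlinarith
  have hτe : 16 * (5 ^ d * τ) = κ ^ 2 / 2 := by
    rw [hτ]
    field_simp
    ring
  obtain ⟨k, hk1, hk⟩ := DUA_k d τ hτ0 hτ1
  have hB0 : (0 : ℝ) < (1 + 4 * (k : ℝ)) ^ d := by positivity
  refine ⟨1 / (2 * (1 + 4 * (k : ℝ)) ^ d), by positivity, ?_⟩
  intro p _ hp2 P hP
  have hp : 0 < p := (Fact.out : p.Prime).pos
  have hp0 : (0 : ℝ) < p := by exact_mod_cast hp
  have hV0 : 0 < (P 2).card := hP.card_pos (by norm_num)
  have hV : (0 : ℝ) < ((P 2).card : ℝ) := by exact_mod_cast hV0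
  have hP1 : (0 : ℝ) < ((P 1).card : ℝ) := by exact_mod_cast hP.card_pos (by norm_num)
  have hsub : P 1 ⊆ P 2 := hP.mono (by norm_num)
  have hP12 : ((P 1).card : ℝ) ≤ (P 2).card := by exact_mod_cast card_le_card hsub
  set V := P 2 with hVdef
  set F : ZMod p → ℝ := fun t => ‖∑ y ∈ V, (ZMod.stdAddChar (t * y) : ℂ)‖ with hF
  have hF0 : ∀ t, 0 ≤ F t := fun t => norm_nonneg _
  have hFV : ∀ t, F t ≤ V.card := by
    intro t
    refine (norm_sum_le _ _).trans (le_of_eq ?_)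
    rw [sum_congr rfl fun y _ => ZB_norm (t * y), sum_const, nsmul_eq_mul, mul_one]
  -- the lower bound
  have hmom := DUA_mom hPLN V (P (2 * (k : ℝ))) k (fun f hf => DUA_sum d P hP k f hf)
  have hUc := (hPKC.2.2 p d P hP (2 * (k : ℝ)) 1 (by positivity) (by norm_num)).1
  have hUc' : ((P (2 * (k : ℝ))).card : ℝ) ≤ (1 + 4 * (k : ℝ)) ^ d * (P 1).card := by
    have e1 : (1 + 2 * (2 * (k : ℝ)) / 1 : ℝ) = 1 + 4 * k := by ring
    rwa [e1] at hUc
  -- the second moment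
  have h2m : ∑ t : ZMod p, F t ^ 2 = p * V.card := by
    have h1 := hPLN p V (fun _ => 1)
    have h2 : ∀ t, ‖ft V (fun _ => 1) t‖ ^ 2 = F t ^ 2 := by
      intro t
      unfold ft
      rw [hF]
      simp only [one_mul]
    simp only [h2] at h1
    rw [h1]
    simp
  set L : Finset (ZMod p) := univ.filter fun t => (1 - τ) * (V.card : ℝ) ≤ F t with hL
  have hsplit : ∑ t : ZMod p, F t ^ (2 * k) ≤
      L.card * (V.card : ℝ) ^ (2 * k) + ((1 - τ) * (V.card : ℝ)) ^ (2 * k - 2) * (p * V.card) := by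
    rw [← sum_filter_add_sum_filter_not univ (fun t => (1 - τ) * (V.card : ℝ) ≤ F t)]
    refine add_le_add ?_ ?_
    · rw [← nsmul_eq_mul]
      exact sum_le_card_nsmul _ _ _ fun t _ => pow_le_pow_left₀ (hF0 t) (hFV t) _
    · rw [← h2m, mul_sum]
      refine (sum_le_sum (fun t ht => ?_)).trans (sum_le_sum_of_subset_of_nonneg (filter_subset _ _)
        (f := fun t => ((1 - τ) * (V.card : ℝ)) ^ (2 * k - 2) * F t ^ 2) fun t _ _ => ?_)
      · have h1 := (not_le.1 (mem_filter.1 ht).2).le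
        have e1 : 2 * k = (2 * k - 2) + 2 := by omega
        have e2 : F t ^ (2 * k) = F t ^ (2 * k - 2) * F t ^ 2 := by
          rw [← pow_add, ← e1]
        rw [e2]
        exact mul_le_mul_of_nonneg_right (pow_le_pow_left₀ (hF0 t) h1 _) (sq_nonneg _)
      · have : 0 ≤ (1 - τ) * (V.card : ℝ) := mul_nonneg (by linarith) hV.le
        positivity
  have hVk : (0 : ℝ) < (V.card : ℝ) ^ (2 * k) := by positivity
  have hmain : (p : ℝ) / 2 ≤ (1 + 4 * (k : ℝ)) ^ d * (P 1).card * L.card := by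
    have hs0 : 0 ≤ ∑ t : ZMod p, F t ^ (2 * k) := sum_nonneg fun t _ => pow_nonneg (hF0 t) _
    have h1 : p * (V.card : ℝ) ^ (2 * k) ≤ (1 + 4 * (k : ℝ)) ^ d * (P 1).card *
        (L.card * (V.card : ℝ) ^ (2 * k) + ((1 - τ) * (V.card : ℝ)) ^ (2 * k - 2) * (p * V.card)) := by
      refine hmom.trans ?_
      refine (mul_le_mul_of_nonneg_right hUc' hs0).trans ?_
      exact mul_le_mul_of_nonneg_left hsplit (by positivity)
    have e2 : ((1 - τ) * (V.card : ℝ)) ^ (2 * k - 2) * (V.card : ℝ) ^ 2 =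
        (1 - τ) ^ (2 * k - 2) * (V.card : ℝ) ^ (2 * k) := by
      rw [mul_pow, mul_assoc, ← pow_add]
      congr 2
      omega
    have h2 : (1 + 4 * (k : ℝ)) ^ d * (P 1).card * (((1 - τ) * (V.card : ℝ)) ^ (2 * k - 2) * (p * V.card)) ≤
        p / 2 * (V.card : ℝ) ^ (2 * k) := by
      have hz : 0 ≤ ((1 - τ) * (V.card : ℝ)) ^ (2 * k - 2) := pow_nonneg (mul_nonneg (by linarith) hV.le) _
      calc (1 + 4 * (k : ℝ)) ^ d * (P 1).card * (((1 - τ) * (V.card : ℝ)) ^ (2 * k - 2) * (p * V.card))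
          ≤ (1 + 4 * (k : ℝ)) ^ d * V.card * (((1 - τ) * (V.card : ℝ)) ^ (2 * k - 2) * (p * V.card)) :=
            mul_le_mul_of_nonneg_right (mul_le_mul_of_nonneg_left hP12 hB0.le) (by positivity)
        _ = p * (1 + 4 * (k : ℝ)) ^ d * (((1 - τ) * (V.card : ℝ)) ^ (2 * k - 2) * (V.card : ℝ) ^ 2) := by ring
        _ = p * ((1 - τ) ^ (2 * k - 2) * (1 + 4 * (k : ℝ)) ^ d) * (V.card : ℝ) ^ (2 * k) := by
            rw [e2]
            ring
        _ ≤ p * (1 / 2) * (V.card : ℝ) ^ (2 * k) :=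
            mul_le_mul_of_nonneg_right (mul_le_mul_of_nonneg_left hk hp0.le) hVk.le
        _ = p / 2 * (V.card : ℝ) ^ (2 * k) := by ring
    have h3 : (V.card : ℝ) ^ (2 * k) * (p / 2) ≤
        (V.card : ℝ) ^ (2 * k) * ((1 + 4 * (k : ℝ)) ^ d * (P 1).card * L.card) := by
      rw [mul_add] at h1
      linarith
    exact le_of_mul_le_mul_left h3 hVk
  -- the map
  have hinj : Function.Injective (fun t : ZMod p => 2 * t) := by
    intro a b hab
    have h2 : (2 : ZMod p) ≠ 0 := by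
      intro h2
      have h3 : ((2 : ℕ) : ZMod p) = 0 := by exact_mod_cast h2
      rw [ZMod.natCast_eq_zero_iff] at h3
      exact hp2 ((Nat.prime_dvd_prime_iff_eq Fact.out Nat.prime_two).1 h3)
    exact mul_left_cancel₀ h2 hab
  have hLS : L.card ≤ (Sk P κ₀).card := by
    rw [← card_image_of_injective L hinj]
    refine card_le_card fun z hz => ?_
    obtain ⟨t, ht, rfl⟩ := mem_image.1 hz
    have ht' := (mem_filter.1 ht).2
    unfold Sk
    refine mem_filter.2 ⟨mem_univ _, fun y hy => ?_⟩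
    have h1 := DUA_big hPKC d P τ t hP hτ0.le hτ1 ht' y hy
    rw [hτe] at h1
    have h2 := DUA_dist (2 * t * y)
    have h3 : ‖ps (2 * t * y) - 1‖ ^ 2 ≤ κ ^ 2 := by
      rw [h2]
      linarith
    exact (abs_le_of_sq_le_sq' h3 hκ0.le).2.trans hκκ
  have hLS' : (L.card : ℝ) ≤ (Sk P κ₀).card := by exact_mod_cast hLS
  have hfin : (p : ℝ) / 2 ≤ (1 + 4 * (k : ℝ)) ^ d * ((P 1).card * (Sk P κ₀).card) := by
    refine hmain.trans ?_
    rw [mul_assoc]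
    exact mul_le_mul_of_nonneg_left (mul_le_mul_of_nonneg_left hLS' hP1.le) hB0.le
  rw [div_mul_eq_mul_div, div_le_iff₀ (by positivity)]
  linarith

end Pool.Agent.OG
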