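import Pool.Agent.helper64.OT.SpecW

set_option autoImplicit false

namespace Pool.Agent.OT

open Finset Polynomial Pool.Agent.helper82.Weil Pool.Agent.helper82.KL

theorem WMH_ne {p : ℕ} [Fact p.Prime] : (ZMod.stdAddChar : AddChar (ZMod p) ℂ) ≠ 1 := by
  intro h
  have h1 : (ZMod.stdAddChar (1 : ZMod p) : ℂ) = ZMod.stdAddChar (0 : ZMod p) := by
    rw [h, AddChar.one_apply, AddChar.one_apply]
  exact one_ne_zero (ZMod.injective_stdAddChar h1)

theorem WMH : WMH_stmt := by
  intro p _ χ r u n hu hn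
  obtain ⟨t0, ht0⟩ := (AddChar.ne_one_iff).mp (WMH_ne (p := p))
  set t : ZMod p := -(t0 / u) with ht
  have hbt : -(u * t) = t0 := by
    rw [ht]; field_simp
  set D : (ZMod p)[X] := C t * (X ^ (n - 1) + C r * X ^ (n - 2)) with hD
  have hDc : ∀ m, D.coeff m = t * ((if m = n - 1 then 1 else 0) + r * (if m = n - 2 then 1 else 0)) := by
    intro m
    rw [hD, coeff_C_mul, coeff_add, coeff_C_mul, coeff_X_pow, coeff_X_pow]
  have hDdeg : D.degree < (n : WithBot ℕ) := by
    rw [degree_lt_iff_coeff_zero]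
    intro m hm
    rw [hDc, if_neg (by omega), if_neg (by omega), mul_zero, add_zero, mul_zero]
  have hD0 : D.eval 0 = 0 := by
    rw [hD, eval_mul, eval_add, eval_mul, eval_pow, eval_pow, eval_X, zero_pow (by omega), zero_pow (by omega), mul_zero,
      add_zero, mul_zero]
  have hDr : D.eval (-r) = 0 := by
    rw [hD, eval_mul, eval_add, eval_mul, eval_pow, eval_pow, eval_X, eval_C, eval_C]
    obtain ⟨m, rfl⟩ : ∃ m, n = m + 2 := ⟨n - 2, by omega⟩
    rw [show m + 2 - 1 = m + 1 from rfl, show m + 2 - 2 = m from rfl, pow_succ]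
    ring
  have hinj : ∀ g : (ZMod p)[X], g ∈ Mon (ZMod p) n → g + D ∈ Mon (ZMod p) n := by
    intro g hg
    rw [mem_Mon] at hg ⊢
    have hd : D.degree < g.degree := by
      rw [degree_eq_natDegree hg.1.ne_zero, hg.2]
      exact hDdeg
    refine ⟨hg.1.add_of_left hd, ?_⟩
    rw [natDegree_add_eq_left_of_degree_lt hd, hg.2]
  have hval : ∀ g : (ZMod p)[X], g ∈ Mon (ZMod p) n →
      LM χ r u (g + D) = (ZMod.stdAddChar t0 : ℂ) * LM χ r u g := by
    intro g hg
    have hg' := hinj g hg
    rw [mem_Mon] at hg hg'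
    have e2 : (g + D).nextCoeff = g.nextCoeff + t := by
      rw [nextCoeff_of_natDegree_pos (by rw [hg'.2]; omega), hg'.2,
        nextCoeff_of_natDegree_pos (by rw [hg.2]; omega), hg.2, coeff_add, hDc, if_pos rfl, if_neg (by omega), mul_zero,
        add_zero, mul_one]
    unfold LM ps
    rw [e2, hg.2, hg'.2, eval_add, eval_add, hD0, hDr, add_zero, add_zero]
    have e3 : -(u * (g.nextCoeff + t)) = t0 + -(u * g.nextCoeff) := by
      rw [← hbt]
      ring
    rw [e3, AddChar.map_add_eq_mul]
    ring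
  have hsum : cA (LM χ r u) n = (ZMod.stdAddChar t0 : ℂ) * cA (LM χ r u) n := by
    unfold cA
    rw [Finset.mul_sum]
    symm
    refine Finset.sum_bij (fun g _ => g + D) ?_ ?_ ?_ ?_
    · intro g hg
      exact hinj g hg
    · intro g _ h _ he
      exact add_right_cancel he
    · intro g hg
      refine ⟨g - D, ?_, by ring⟩
      rw [mem_Mon] at hg
      have hd : D.degree < g.degree := by
        rw [degree_eq_natDegree hg.1.ne_zero, hg.2]
        exact hDdeg
      rw [mem_Mon, sub_eq_add_neg]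
      have hd' : (-D).degree < g.degree := by
        rw [degree_neg]
        exact hd
      refine ⟨hg.1.add_of_left hd', ?_⟩
      rw [natDegree_add_eq_left_of_degree_lt hd', hg.2]
    · intro g hg
      exact (hval g hg).symm
  have h4 : (1 - (ZMod.stdAddChar t0 : ℂ)) * cA (LM χ r u) n = 0 := by
    rw [sub_mul, one_mul, ← hsum, sub_self]
  rcases mul_eq_zero.mp h4 with h5 | h5
  · exact absurd (sub_eq_zero.mp h5).symm ht0
  · exact h5

end Pool.Agent.OT
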